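import Pool.Agent.W_MP_654ec6_h2.Final

/-!
# MP_654ec6_gt: the set of non-spherical points need not be discrete

There is a noncollapsed four-dimensional Ricci limit space with a point of the bad set which is an
accumulation point of the bad set. All definitions which the statement uses are in this file.
-/

open scoped Manifold ContDiff Topology Bundle ENNReal
open Filter Bundle

namespace Pool.Agent.Results.MP_654ec6_gt.BadSetNotDiscrete

section Ricci

variable {E : Type} [NormedAddCommGroup E] [NormedSpace ℝ E]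

/-- Derivative in the direction of the `i`-th vector of the basis `b` of the model space. -/
noncomputable def pd (b : Fin 4 → E) (i : Fin 4) (f : E → ℝ) (x : E) : ℝ := fderiv ℝ f x (b i)

/-- Christoffel symbols `Γ^k_{ij}` (in linear coordinates with basis `b`) of the metric with
coefficients `g`. -/
noncomputable def chr (b : Fin 4 → E) (g : E → Matrix (Fin 4) (Fin 4) ℝ) (k i j : Fin 4)
    (x : E) : ℝ :=
  (1 / 2) * ∑ l, (g x)⁻¹ k l *
    (pd b i (fun y => g y l j) x + pd b j (fun y => g y l i) x - pd b l (fun y => g y i j) x)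

/-- Coefficients of the Ricci tensor of the metric with coefficients `g`:
`R_ij = ∂_k Γ^k_ij - ∂_j Γ^k_ik + Γ^k_kl Γ^l_ij - Γ^k_jl Γ^l_ik`. -/
noncomputable def ric (b : Fin 4 → E) (g : E → Matrix (Fin 4) (Fin 4) ℝ) (i j : Fin 4)
    (x : E) : ℝ :=
  ∑ k, (pd b k (chr b g k i j) x - pd b j (chr b g k i k) x) +
    ∑ k, ∑ l, (chr b g k k l x * chr b g l i j x - chr b g k j l x * chr b g l i k x)

end Ricci

section Riemannian

variable {E : Type} [NormedAddCommGroup E] [NormedSpace ℝ E] {M : Type} [MetricSpace M]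
  [ChartedSpace E M] [IsManifold 𝓘(ℝ, E) ∞ M]

variable (E M) in
/-- The smooth Riemannian metrics on the smooth manifold `M` (modelled on `E`). -/
abbrev RMet : Type :=
  ContMDiffRiemannianMetric 𝓘(ℝ, E) ∞ E (fun p : M => TangentSpace 𝓘(ℝ, E) p)

/-- The inner product, for the Riemannian metric `G`, of two tangent vectors at `p`. -/
noncomputable def ip (G : RMet E M) (p : M) (u w : TangentSpace 𝓘(ℝ, E) p) : ℝ := G.inner p u w

/-- The coefficients of `G` in the chart `φ` at `x` (in linear coordinates with basis `b`):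
`y ↦ (G (dφ⁻¹ b_i, dφ⁻¹ b_j))`, the derivative of `φ⁻¹` being taken at `y`. -/
noncomputable def chartMet (b : Fin 4 → E) (G : RMet E M) (x : M) (y : E) :
    Matrix (Fin 4) (Fin 4) ℝ :=
  Matrix.of fun i j => ip G ((extChartAt 𝓘(ℝ, E) x).symm y)
    (mfderiv 𝓘(ℝ, E) 𝓘(ℝ, E) (extChartAt 𝓘(ℝ, E) x).symm y (b i))
    (mfderiv 𝓘(ℝ, E) 𝓘(ℝ, E) (extChartAt 𝓘(ℝ, E) x).symm y (b j))

/-- The Ricci curvature of `G` is at least `κ`: the quadratic form `Ric - κ G` is nonnegative at
every point `x` (computed in the chart at `x`). -/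
def RicGE (b : Fin 4 → E) (G : RMet E M) (κ : ℝ) : Prop :=
  ∀ (x : M) (v : Fin 4 → ℝ),
    κ * ∑ i, ∑ j, chartMet b G x (extChartAt 𝓘(ℝ, E) x x) i j * v i * v j ≤
      ∑ i, ∑ j, ric b (chartMet b G x) i j (extChartAt 𝓘(ℝ, E) x x) * v i * v j

/-- The distance of `M` is the Riemannian distance of `G` (the infimum of the lengths, measured
with `G`, of the paths joining two points). -/
def IsDistOf (G : RMet E M) : Prop :=
  letI : RiemannianBundle (fun p : M => TangentSpace 𝓘(ℝ, E) p) := ⟨G.toRiemannianMetric⟩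
  IsRiemannianManifold 𝓘(ℝ, E) M

end Riemannian

/-- `M` is (with its distance) a complete smooth Riemannian manifold, modelled on `E` (a normed
space with basis `b`), with Ricci curvature bounded below by `κ`: there are a smooth manifold
structure and a smooth Riemannian metric `G` on `M` such that the distance of `M` is the Riemannian
distance of `G`, `M` is complete, and `Ric ≥ κ G`. -/
def IsCompleteRicciGE {E : Type} [NormedAddCommGroup E] [NormedSpace ℝ E] (b : Fin 4 → E)
    (M : Type) [MetricSpace M] (κ : ℝ) : Prop :=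
  CompleteSpace M ∧ ∃ (_ : ChartedSpace E M) (_ : IsManifold 𝓘(ℝ, E) ∞ M) (G : RMet E M),
    IsDistOf G ∧ RicGE b G κ

/-- The standard basis of `ℝ⁴`. -/
noncomputable def stdBasis (i : Fin 4) : EuclideanSpace ℝ (Fin 4) := EuclideanSpace.single i 1

/-- The four-dimensional volume of a subset of a metric space: the four-dimensional Hausdorff
measure. On a Riemannian four-manifold it is the Riemannian volume up to a universal constant
factor (the normalisation of the Hausdorff measure). -/
noncomputable def vol4 (M : Type) [MetricSpace M] (A : Set M) : ℝ≥0∞ :=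
  letI : MeasurableSpace M := borel M
  haveI : BorelSpace M := ⟨rfl⟩
  MeasureTheory.Measure.hausdorffMeasure 4 A

/-- Pointed Gromov-Hausdorff convergence of `(X n, d n, p n)` to `(Y, D, y)` (Burago, Burago,
Ivanov, Definition 8.1.1), for distance functions `d n` and `D`. -/
def PGH {X : ℕ → Type} (d : ∀ n, X n → X n → ℝ) (p : ∀ n, X n) {Y : Type} (D : Y → Y → ℝ)
    (y : Y) : Prop :=
  ∀ r > (0 : ℝ), ∀ ε > (0 : ℝ), ∃ n₀ : ℕ, ∀ n ≥ n₀, ∃ f : X n → Y,
    f (p n) = y ∧
    (∀ a b, d n a (p n) < r → d n b (p n) < r → |D (f a) (f b) - d n a b| < ε) ∧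
    ∀ z, D z y < r - ε → ∃ a, d n a (p n) < r ∧ D z (f a) < ε

/-- `X` is a noncollapsed four-dimensional Ricci limit space: the pointed Gromov-Hausdorff limit
of complete Riemannian four-manifolds `(M i, p i)` with `Ric ≥ -3` and
`vol (B (p i) 1) ≥ v > 0`. -/
def IsRicciLimit4 (X : Type) [MetricSpace X] : Prop :=
  CompleteSpace X ∧
  ∃ (M : ℕ → Type) (_ : ∀ i, MetricSpace (M i)) (p : ∀ i, M i) (x₀ : X) (v : ℝ), 0 < v ∧
    (∀ i, IsCompleteRicciGE stdBasis (M i) (-3)) ∧
    (∀ i, ENNReal.ofReal v ≤ vol4 (M i) (Metric.ball (p i) 1)) ∧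
    PGH (fun i => (dist : M i → M i → ℝ)) p (dist : X → X → ℝ) x₀

/-- The distance of the metric cone over `Z` (points `(z, s)`, where `s ≥ 0` is the distance to
the tip). -/
noncomputable def coneDist {Z : Type} [MetricSpace Z] (a b : Z × NNReal) : ℝ :=
  Real.sqrt ((a.2 : ℝ) ^ 2 + (b.2 : ℝ) ^ 2 - 2 * a.2 * b.2 * Real.cos (dist a.1 b.1))

/-- The compact metric space `Z` (of diameter at most `π`) is the cross-section of some tangent
cone of `X` at `x`: the metric cone over `Z` is the pointed Gromov-Hausdorff limit of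
`(X, (r n)⁻¹ d, x)` for a sequence `r n → 0`. -/
def IsCrossSection (X : Type) [MetricSpace X] (x : X) (Z : Type) [MetricSpace Z] : Prop :=
  CompactSpace Z ∧ (∀ a b : Z, dist a b ≤ Real.pi) ∧
  ∃ r : ℕ → ℝ, (∀ n, 0 < r n) ∧ Tendsto r atTop (𝓝 0) ∧
    ∃ z₀ : Z, PGH (fun n (a b : X) => dist a b / r n) (fun _ => x) (coneDist (Z := Z)) (z₀, 0)

/-- The unit sphere of the normed space `E`. -/
abbrev unitSphere (E : Type) [NormedAddCommGroup E] : Set E := Metric.sphere (0 : E) 1

/-- The set of points of `X` at which the cross-section of some tangent cone is not homeomorphic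
to the three-sphere. -/
def badSet (X : Type) [MetricSpace X] : Set X :=
  {x | ∃ (Z : Type) (_ : MetricSpace Z), IsCrossSection X x Z ∧
    IsEmpty (Z ≃ₜ unitSphere (EuclideanSpace ℝ (Fin 4)))}

/-- The negation of the question: there is a noncollapsed four-dimensional Ricci limit space `X`
with a point `x` of the bad set which is an accumulation point of the bad set. -/
def NotDiscrete : Prop :=
  ∃ (X : Type) (_ : MetricSpace X), IsRicciLimit4 X ∧
    ∃ x ∈ badSet X, ∀ U ∈ 𝓝 x, ∃ y ∈ U, y ≠ x ∧ y ∈ badSet X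

theorem isCompleteRicciGE_of (M : Type) [MetricSpace M] (κ : ℝ)
    (h : Pool.Agent.W_MP_654ec6.IsCompleteRicciGE M κ) : IsCompleteRicciGE stdBasis M κ := by
  obtain ⟨h1, c, m, G, h2, h3⟩ := h
  exact ⟨h1, c, m, G, h2, fun x v => h3 x (WithLp.toLp 2 v)⟩

theorem isRicciLimit4_of (X : Type) [MetricSpace X]
    (h : Pool.Agent.W_MP_654ec6.IsRicciLimit4 X) : IsRicciLimit4 X := by
  obtain ⟨h1, M, i, p, x₀, v, h2, h3, h4, h5⟩ := h
  exact ⟨h1, M, i, p, x₀, v, h2, fun n => isCompleteRicciGE_of (M n) _ (h3 n), h4, h5⟩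

/-- The negation of the question. -/
theorem result : NotDiscrete := by
  obtain ⟨X, i, h1, x, h2, h3⟩ := Pool.Agent.W_MP_654ec6_h2.notDiscrete
  exact ⟨X, i, isRicciLimit4_of X h1, x, h2, h3⟩

end Pool.Agent.Results.MP_654ec6_gt.BadSetNotDiscrete
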